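import Pool.Agent.H705.FP.Stm

/-! # LIN: small linear forms in independent uniform variables (helper878, for helper705) -/

set_option autoImplicit false

namespace Pool.Agent.H878.FP

open MeasureTheory ProbabilityTheory Filter Topology Finset
open Pool.Agent.H705.FP

theorem lin_aux (hONE : P_ONE) {Ω : Type} [MeasurableSpace Ω] {P : Measure Ω} {U : ℕ → Ω → ℝ}
    (hU : ModelU P U) {A : ℕ} {g w : ℕ → ℝ} (hw : WinU A g w) (I : Finset ℕ) (c : ℕ → ℤ)
    {j M : ℕ} (hj : j ∈ I) (hcj : c j ≠ 0) (hjM : j ≤ M) {η : ℝ} (hη : 0 ≤ η) :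
    P {ω | |∑ n ∈ I, (c n : ℝ) * om g w (fun n => U n ω) n| < η} ≤
      ENNReal.ofReal (2 * η * ((M : ℝ) + 2) ^ A) := by
  classical
  have := hU.prob
  obtain ⟨S, hS⟩ : ∃ S, S = I.erase j := ⟨_, rfl⟩
  have hdis : Disjoint S ({j} : Finset ℕ) := by
    rw [hS]
    exact Finset.disjoint_singleton_right.2 (Finset.notMem_erase j I)
  have hind := hU.indep.indepFun_finset S {j} hdis hU.meas
  obtain ⟨φ, hφ⟩ : ∃ φ : (S → ℝ) → ℝ, φ = fun x => ∑ n : S, (c n : ℝ) * (g n + w n * x n) +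
    (c j : ℝ) * g j := ⟨_, rfl⟩
  obtain ⟨ψ, hψ⟩ : ∃ ψ : (({j} : Finset ℕ) → ℝ) → ℝ, ψ = fun x => x ⟨j, Finset.mem_singleton_self j⟩ :=
    ⟨_, rfl⟩
  have hφm : Measurable φ := by
    rw [hφ]
    refine Measurable.add_const ?_ _
    refine Finset.measurable_sum _ fun n _ => ?_
    exact ((((measurable_pi_apply n).const_mul _).const_add _).const_mul _)
  have hψm : Measurable ψ := by
    rw [hψ]
    exact measurable_pi_apply _
  have hYV := hind.comp hφm hψm
  obtain ⟨Y, hY⟩ : ∃ Y : Ω → ℝ, Y = φ ∘ (fun a (i : S) => U i a) := ⟨_, rfl⟩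
  have hV : ψ ∘ (fun a (i : ({j} : Finset ℕ)) => U i a) = U j := by
    rw [hψ]
    rfl
  rw [hV, ← hY] at hYV
  have hYm : Measurable Y := by
    rw [hY]
    exact hφm.comp (measurable_pi_lambda _ fun i => hU.meas i)
  obtain ⟨w1, w2, w3, w4⟩ := hw j
  have hj2 : (0 : ℝ) < ((j : ℝ) + 2) ^ A := by positivity
  have hwj : 0 < w j := lt_of_lt_of_le (by positivity) w3
  have hc1 : (1 : ℝ) ≤ |(c j : ℝ)| := by
    have := Int.one_le_abs hcj
    exact_mod_cast this
  have hl : (c j : ℝ) * w j ≠ 0 := mul_ne_zero (by exact_mod_cast hcj) hwj.ne'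
  have h1 := hONE Ω P Y (U j) hYm (hU.meas j) hYV (hU.law j) ((c j : ℝ) * w j) η hl hη
  have hset : {ω | |∑ n ∈ I, (c n : ℝ) * om g w (fun n => U n ω) n| < η} =
      {ω | |Y ω + (c j : ℝ) * w j * U j ω| < η} := by
    ext ω
    have e1 : ∑ n ∈ I, (c n : ℝ) * om g w (fun n => U n ω) n =
        Y ω + (c j : ℝ) * w j * U j ω := by
      rw [← Finset.sum_erase_add I _ hj, hY, ← hS, Function.comp_apply, hφ,
        ← Finset.sum_coe_sort S]
      unfold om
      ring
    rw [Set.mem_ofPred_eq, Set.mem_ofPred_eq, e1]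
  rw [hset]
  refine h1.trans (ENNReal.ofReal_le_ofReal ?_)
  have hl0 : 0 < |(c j : ℝ) * w j| := abs_pos.2 hl
  have hl1 : 1 / ((M : ℝ) + 2) ^ A ≤ |(c j : ℝ) * w j| := by
    calc 1 / ((M : ℝ) + 2) ^ A ≤ 1 / ((j : ℝ) + 2) ^ A := by
          refine one_div_le_one_div_of_le hj2 ?_
          have : (j : ℝ) ≤ M := by exact_mod_cast hjM
          gcongr
      _ ≤ w j := w3
      _ ≤ |(c j : ℝ)| * w j := by nlinarith
      _ = |(c j : ℝ) * w j| := by rw [abs_mul, abs_of_pos hwj]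
  rw [div_le_iff₀ hl0]
  have hM : (0 : ℝ) < ((M : ℝ) + 2) ^ A := by positivity
  rw [div_le_iff₀ hM] at hl1
  nlinarith [mul_le_mul_of_nonneg_left hl1 (by linarith : 0 ≤ 2 * η)]

theorem T_LIN (hONE : P_ONE) : P_LIN := by
  classical
  intro Ω _ P U hU A g w hw N k s m hNm hmN hne η hη
  have hm : m ∉ Finset.range N := by
    rw [Finset.mem_range]
    omega
  obtain ⟨c, hc⟩ : ∃ c : ℕ → ℤ, c = fun n => if n = m then s else k n := ⟨_, rfl⟩
  have hcm : c m = s := by rw [hc]; exact if_pos rfl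
  have hck : ∀ n < N, c n = k n := by
    intro n hn
    rw [hc]
    exact if_neg (by omega)
  have hsum : ∀ ω, ∑ n ∈ range N, (k n : ℝ) * om g w (fun n => U n ω) n +
      (s : ℝ) * om g w (fun n => U n ω) m =
      ∑ n ∈ insert m (range N), (c n : ℝ) * om g w (fun n => U n ω) n := by
    intro ω
    rw [Finset.sum_insert hm, hcm, add_comm]
    congr 1
    refine Finset.sum_congr rfl fun n hn => ?_
    rw [hck n (Finset.mem_range.1 hn)]
  have hj : ∃ j ∈ insert m (range N), c j ≠ 0 := by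
    rcases hne with ⟨n, hn, hkn⟩ | hs
    · exact ⟨n, Finset.mem_insert_of_mem (Finset.mem_range.2 hn), by rw [hck n hn]; exact hkn⟩
    · exact ⟨m, Finset.mem_insert_self _ _, by rw [hcm]; exact hs⟩
  obtain ⟨j, hjI, hcj⟩ := hj
  have hjM : j ≤ N ^ 4 := by
    rcases Finset.mem_insert.1 hjI with h | h
    · omega
    · have := Finset.mem_range.1 h
      omega
  have h1 := lin_aux hONE hU hw (insert m (range N)) c hjI hcj hjM hη
  simp only [hsum]
  refine h1.trans (le_of_eq ?_)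
  push_cast
  rfl

end Pool.Agent.H878.FP
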